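import Mathlib
import Pool.Agent.N626.Ld

/-!
# Potential density of rational points from one curve or sequence of complex points

Let `X` be a projective variety over a number field, and let `X°` be the complement of the
hypersurface `Q = 0` in `X` (`Q = 1` is allowed; then `X° = X`). We prove that the rational points of
`X`, and more generally the integral points of `X°`, are potentially dense, if the complex variety
`X°` contains one of the following:

* an entire curve `f` given by linear differential equations with polynomial coefficients such that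
  the points `(z, f(z))` are Zariski-dense in the product of the affine line and `X`, or a
  Zariski-dense entire curve given by linear differential equations with constant coefficients;
* a holomorphic curve given by linear differential equations over a differential ring `B` of
  holomorphic functions, and generic over `B`;
* a P-recursive sequence of complex points `x_m` such that the points `(m, x_m)` are Zariski-dense in
  the product of the affine line and `X`, or a Zariski-dense sequence given by linear recurrences with
  constant coefficients.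

In all these cases `X°` is dominated by a torus over the algebraic numbers.
-/

set_option autoImplicit false

namespace Pool.Agent.Results.MP_b62148_ag.AnalyticPotentialDensity

open MvPolynomial
open Pool.Agent.TH143 (DiffRing LinOver PolODE)
open Pool.Agent.TH143.DE (RecAlong)
open Pool.Agent.N626

variable {N : ℕ}

/-- `p` is the ideal of a variety in the complex projective space: a prime ideal, generated by forms,
which does not contain all the variables. -/
structure IsVariety (p : Ideal (MvPolynomial (Fin (N + 1)) ℂ)) : Prop where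
  prime : p.IsPrime
  hom : ∀ G ∈ p, ∀ D, homogeneousComponent D G ∈ p
  ne : ∃ l, (X l : MvPolynomial (Fin (N + 1)) ℂ) ∉ p

/-- The variety is defined over a number field: its ideal is generated by polynomials with algebraic
coefficients. -/
def OverQbar (p : Ideal (MvPolynomial (Fin (N + 1)) ℂ)) : Prop :=
  ∀ G ∈ p, G ∈ Ideal.span {H | H ∈ p ∧ ∀ v, IsAlgebraic ℚ (H.coeff v)}

/-- The complement of `Q = 0` in the variety with the ideal `p` is dominated by the torus of
dimension `r` over the algebraic numbers, for some `r`: there are polynomials `w_j` in `r` variables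
with algebraic coefficients such that the points `(w_0(t) : … : w_N(t))` are contained in the variety
and Zariski-dense in it, and such that `Q (w(t)) ≠ 0` for every `t` with nonzero coordinates. For
`Q = 1` this says that the variety is unirational over the algebraic numbers. -/
def TorusDominated (p : Ideal (MvPolynomial (Fin (N + 1)) ℂ)) (Q : MvPolynomial (Fin (N + 1)) ℂ) :
    Prop :=
  ∃ (r : ℕ) (w : Fin (N + 1) → MvPolynomial (Fin r) ℂ),
    (∀ j v, IsAlgebraic ℚ ((w j).coeff v)) ∧ (∀ G ∈ p, aeval w G = 0) ∧
    (∀ G : MvPolynomial (Fin (N + 1)) ℂ, (∃ e, G.IsHomogeneous e) → aeval w G = 0 → G ∈ p) ∧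
    ∀ t : Fin r → ℂ, (∀ k, t k ≠ 0) → eval t (aeval w Q) ≠ 0

/-- The points `x m` in the complement of `Q = 0` in the variety with the ideal `p` are given by
homogeneous coordinates which satisfy nontrivial linear recurrences whose coefficients are
polynomials in `t m`; the values of `Q` satisfy a recurrence of order one of this kind (this condition
is empty if `Q` is a constant); and the points `(t m, x m)` are Zariski-dense in the product of the
affine line and the variety. For `t m = m` the sequence `x` is P-recursive. -/
structure RecPoints (t : ℕ → ℂ) (p : Ideal (MvPolynomial (Fin (N + 1)) ℂ))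
    (Q : MvPolynomial (Fin (N + 1)) ℂ) (x : ℕ → Fin (N + 1) → ℂ) : Prop where
  ne : ∀ m, x m ≠ 0
  on : ∀ G ∈ p, ∀ m, eval (x m) G = 0
  off : ∀ m, eval (x m) Q ≠ 0
  eq : ∀ j, RecAlong t fun m => x m j
  bd : ∃ P R : Polynomial ℂ, P ≠ 0 ∧
    ∀ m, P.eval (t m) * eval (x (m + 1)) Q = R.eval (t m) * eval (x m) Q
  dense : PairDense t p x

/-- The points `x m` in the complement of `Q = 0` in the variety with the ideal `p` are given by
homogeneous coordinates which satisfy linear recurrences with constant coefficients; the values of
`Q` form a geometric sequence (this condition is empty if `Q` is a constant); and the points `x m` are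
Zariski-dense in the variety. -/
structure ConstRecPoints (p : Ideal (MvPolynomial (Fin (N + 1)) ℂ))
    (Q : MvPolynomial (Fin (N + 1)) ℂ) (x : ℕ → Fin (N + 1) → ℂ) : Prop where
  ne : ∀ m, x m ≠ 0
  on : ∀ G ∈ p, ∀ m, eval (x m) G = 0
  off : ∀ m, eval (x m) Q ≠ 0
  eq : ∀ j, ∃ (n : ℕ) (a : ℕ → ℂ), a n ≠ 0 ∧
    ∀ m, ∑ k ∈ Finset.range (n + 1), a k * x (m + k) j = 0
  bd : ∃ c : ℂ, ∀ m, eval (x (m + 1)) Q = c * eval (x m) Q
  dense : ∀ G : MvPolynomial (Fin (N + 1)) ℂ, (∃ e, G.IsHomogeneous e) →
    (∀ m, eval (x m) G = 0) → G ∈ p

/-- `f` is an entire curve in the complement of `Q = 0` in the variety with the ideal `p`, given by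
its homogeneous coordinates. (If `Q` is a constant, then the coordinates may have common zeros; `f`
extends to them, if it is not zero everywhere.) -/
structure Curve (p : Ideal (MvPolynomial (Fin (N + 1)) ℂ)) (Q : MvPolynomial (Fin (N + 1)) ℂ)
    (f : ℂ → Fin (N + 1) → ℂ) : Prop where
  diff : ∀ j, Differentiable ℂ fun z => f z j
  on : ∀ G ∈ p, ∀ z, eval (f z) G = 0
  off : ∀ z, eval (f z) Q ≠ 0

/-- `f` is an entire curve in the complement of `Q = 0` in the variety with the ideal `p` whose
homogeneous coordinates satisfy nontrivial linear differential equations with constant coefficients,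
and it is Zariski-dense in the variety. -/
structure ConstCurve (p : Ideal (MvPolynomial (Fin (N + 1)) ℂ)) (Q : MvPolynomial (Fin (N + 1)) ℂ)
    (f : ℂ → Fin (N + 1) → ℂ) : Prop extends Curve p Q f where
  ode : ∀ j, ConstODE fun z => f z j
  dense : ∀ G : MvPolynomial (Fin (N + 1)) ℂ, (∃ e, G.IsHomogeneous e) →
    (∀ z, eval (f z) G = 0) → G ∈ p

/-- `f` is an entire curve in the complement of `Q = 0` in the variety with the ideal `p` whose
homogeneous coordinates satisfy nontrivial linear differential equations with polynomial coefficients,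
and the points `(z, f z)` are Zariski-dense in the product of the affine line and the variety. -/
structure PolCurve (p : Ideal (MvPolynomial (Fin (N + 1)) ℂ)) (Q : MvPolynomial (Fin (N + 1)) ℂ)
    (f : ℂ → Fin (N + 1) → ℂ) : Prop extends Curve p Q f where
  ode : ∀ j, PolODE fun z => f z j
  dense : GraphDense p f

/-- `B` is a ring of holomorphic functions on the connected open set `Ω`, closed under
differentiation; `f` is a holomorphic curve on `Ω` in the variety with the ideal `p`, given by
homogeneous coordinates which satisfy nontrivial linear differential equations with coefficients in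
`B`; the curve is not contained in `Q = 0`, and the logarithmic derivative of `Q (f)` is a quotient of
elements of `B` (this condition is empty if `Q` is a constant); and the curve is generic over `B`: all
forms with coefficients in `B` which vanish on it have values in `p`. -/
structure GenCurve (Ω : Set ℂ) (B : Subalgebra ℂ (ℂ → ℂ))
    (p : Ideal (MvPolynomial (Fin (N + 1)) ℂ)) (Q : MvPolynomial (Fin (N + 1)) ℂ)
    (f : ℂ → Fin (N + 1) → ℂ) : Prop where
  isOpen : IsOpen Ω
  conn : IsPreconnected Ω
  ring : DiffRing Ω B
  an : ∀ j, AnalyticOnNhd ℂ (fun z => f z j) Ω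
  on : ∀ G ∈ p, ∀ z ∈ Ω, eval (f z) G = 0
  off : ∃ z ∈ Ω, eval (f z) Q ≠ 0
  ode : ∀ j, LinOver Ω B fun z => f z j
  bd : ∃ b ∈ B, ∃ c ∈ B, (∃ z ∈ Ω, b z ≠ 0) ∧
    ∀ z ∈ Ω, b z * deriv (fun w => eval (f w) Q) z = c z * eval (f z) Q
  gen : GenOver Ω B p f

/-- The complement of `Q = 0` in the variety with the ideal `p` contains a curve or a sequence of
complex points of one of the kinds above. -/
def Witness (p : Ideal (MvPolynomial (Fin (N + 1)) ℂ)) (Q : MvPolynomial (Fin (N + 1)) ℂ) : Prop :=
  (∃ (t : ℕ → ℂ) (α β : ℂ), Function.Injective t ∧ α ≠ 0 ∧ (∀ m, t (m + 1) = α * t m + β) ∧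
    ∃ x, RecPoints t p Q x) ∨
  (∃ x, ConstRecPoints p Q x) ∨
  (∃ f, ConstCurve p Q f) ∨
  (∃ f, PolCurve p Q f) ∨
  ∃ (Ω : Set ℂ) (B : Subalgebra ℂ (ℂ → ℂ)) (f : ℂ → Fin (N + 1) → ℂ), GenCurve Ω B p Q f

/-- Let `p` be the ideal of a variety in the projective space which is defined over a number field,
let `Q` be a form with algebraic coefficients, and suppose that the complement of `Q = 0` in the
variety contains a curve or a sequence of complex points of one of the kinds above. Then this
complement is dominated by a torus over the algebraic numbers, and for some number field `L` and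
some `d` the points of the complement with coordinates in `L` which are integral over `ℤ[1/d]` are
Zariski-dense in the variety. For `Q = 1` this says that the variety is unirational over the
algebraic numbers, and that its rational points are potentially dense. -/
theorem result (p : Ideal (MvPolynomial (Fin (N + 1)) ℂ)) (hp : IsVariety p) (hp' : OverQbar p)
    (Q : MvPolynomial (Fin (N + 1)) ℂ) {q : ℕ} (hQ : Q.IsHomogeneous q)
    (hQ' : ∀ v, IsAlgebraic ℚ (Q.coeff v)) (h : Witness p Q) :
    TorusDominated p Q ∧ PotDense p Q := by
  obtain ⟨l, hl⟩ := hp.ne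
  obtain ⟨r, w, h1, h2, h3⟩ : ∃ (r : ℕ) (w : Fin (N + 1) → MvPolynomial (Fin r) ℂ),
      (∀ G ∈ p, (∃ e, G.IsHomogeneous e) → aeval w G = 0) ∧
      (∀ G : MvPolynomial (Fin (N + 1)) ℂ, (∃ e, G.IsHomogeneous e) → aeval w G = 0 → G ∈ p) ∧
      ∀ t : Fin r → ℂ, (∀ k, t k ≠ 0) → eval t (aeval w Q) ≠ 0 := by
    rcases h with ⟨t, α, β, htI, hα, ht, x, hx⟩ | ⟨x, hx⟩ | ⟨f, hf⟩ | ⟨f, hf⟩ |
      ⟨Ω, B, f, hf⟩
    · exact torus_of_rat htI hα ht hp.prime hl hQ hx.on hx.off hx.eq hx.bd hx.dense
    · exact torus_of_const hp.prime hl hQ hx.ne hx.on hx.off hx.eq hx.bd hx.dense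
    · obtain ⟨c, hc⟩ := log_const hf.diff hf.ode hf.off
      exact torus_gen isOpen_univ isPreconnected_univ bot_diff f
        (fun j z _ => (hf.diff j).analyticAt z) (fun j => (hf.ode j).linOver) hp.prime hl
        (fun G hG z _ => hf.on G hG z) (gen_bot hf.dense) hQ ⟨0, Set.mem_univ _, hf.off 0⟩
        (bot_mem.2 ⟨1, fun _ => rfl⟩) (bot_mem.2 ⟨c, fun _ => rfl⟩)
        ⟨0, Set.mem_univ _, one_ne_zero⟩ (fun z _ => by rw [one_mul, hc z])
    · obtain ⟨P, hP⟩ := log_pol hf.diff hf.ode hf.off
      exact torus_gen (bq := fun _ => 1) (cq := fun z => P.eval z) isOpen_univ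
        isPreconnected_univ polB_diff f
        (fun j z _ => (hf.diff j).analyticAt z) (fun j => PolODE.linOver (hf.ode j)) hp.prime hl
        (fun G hG z _ => hf.on G hG z) (gen_pol hf.dense) hQ ⟨0, Set.mem_univ _, hf.off 0⟩
        ⟨1, fun _ => by rw [Polynomial.eval_one]⟩ ⟨P, fun _ => rfl⟩
        ⟨0, Set.mem_univ _, one_ne_zero⟩ (fun z _ => by rw [one_mul, hP z])
    · obtain ⟨b, hb, c, hc, hb0, hbc⟩ := hf.bd
      exact torus_gen hf.isOpen hf.conn hf.ring f hf.an hf.ode hp.prime hl
        hf.on hf.gen hQ hf.off hb hc hb0 hbc
  obtain ⟨w', e1, e2, e3, v, c, hc, hca, hv⟩ := qbar_torus hp.prime hl hp' hQ'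
    (fun G hG => on_comp hp.hom h1 hG) h2 h3
  refine ⟨⟨r, w', e1, e2, e3, fun t ht => ?_⟩, pot_dense hl e1 e2 e3 hc hca hv⟩
  rw [hv, eval_monomial]
  exact mul_ne_zero hc (Finset.prod_ne_zero_iff.2 fun k _ => pow_ne_zero _ (ht k))

end Pool.Agent.Results.MP_b62148_ag.AnalyticPotentialDensity
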