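import Mathlib
import Pool.Agent.N230.FC.Multi2

/-!
# General hypersurfaces of low multidegree over fields with small `u`-invariant and over function fields

Let `F` be a field of characteristic zero, and `X` a hypersurface of multidegree `(2, d₁, …, d_m)` in
`ℙ^{n₀} × ℙ^{n₁} × ⋯ × ℙ^{n_m}` over `F`, where `n₀ ≥ 2`, `1 ≤ d_j ≤ 3` and `d_j ≤ n_j + 1` for all `j ≥ 1`. We
suppose that `X` is geometrically irreducible and general: the coefficients of its equation are not a zero of a
certain nonzero polynomial `Φ` with rational coefficients, which depends only on the `n_j` and the `d_j`.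

(1) If the quadratic forms in `n₀ + 1` variables over `F` have nontrivial zeros, then `X` is unirational over `F`, and
its rational points are Zariski dense. For `n₀ ≥ 4` this applies for instance to the `p`-adic fields and to the totally
imaginary number fields (by the theorem of Hasse and Minkowski), and for `n₀ ≥ 2 ^ r` to the function fields of the
varieties of dimension at most `r` over algebraically closed fields (by Lang's theorem).

(2) Let `k` be an algebraically closed field of characteristic zero, for instance the field of algebraic numbers, `B` a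
variety over `k` of dimension at most `r`, where `n₀ ≥ 2 ^ r`, and `F = k(B)`. Then the total space `𝒳` of the family of
hypersurfaces `X` over `B` is dominated, over `B`, by the product of `B` with an affine space. So if `B` is
unirational, then `𝒳` is unirational and potentially dense. In general, `𝒳` is potentially dense if and only if `B` is.
The same holds for the varieties `𝒳'` with dominant rational maps `𝒳 ⇢ 𝒳' ⇢ B` over `B`.

Here no point of `X` is given, and in (2) the degrees of the coefficients, as rational functions on `B`, are not
bounded. For instance, let `B = ℙ¹`, `r = 1`. The families of hypersurfaces of bidegree `(2, 3)` in `ℙ² × ℙ²` over `ℙ¹`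
are the hypersurfaces of multidegree `(2, 3, e)` in `ℙ² × ℙ² × ℙ¹`, with arbitrary `e`. Their fibres over `ℙ¹` are
conic bundles over the plane with discriminant curves of degree nine, and the conic bundles over `ℙ² × ℙ¹` have
discriminants of bidegree `(9, 3 e)`. Similarly for multidegree `(2, 2, …, 2, e)` in `ℙ² × ℙ¹ × ⋯ × ℙ¹ × ℙ¹`, or
`(2, 3, …, 3, e)` in `ℙ² × ℙ² × ⋯ × ℙ² × ℙ¹`.

Proof. The fibres of `X` over the general points of the other factors `ℙ^{n₁} × ⋯ × ℙ^{n_m}` with coordinates in `ℚ` or
`F` are smooth quadrics over `F` with rational points, and so the rational points are dense in them. Since these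
quadrics cover `X` there is a rational point of `X` outside of a given proper closed subset (which we may take as the
preimage of a proper closed subset under the projection which forgets one coordinate), and a general `X` is unirational
if there is such a point.
-/

set_option autoImplicit false

namespace Pool.Agent.Results.MP_b62148_ag.GeneralMultidegreeOverBases

open MvPolynomial

universe u v

section defs

/-- The exponents of the monomials whose degree in the variables of the block `j` is at most `d j`, for all `j`. Here
`b l` is the block of the variable `l`. -/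
abbrev Exponent {N m : ℕ} (b : Fin N → Fin m) (d : Fin m → ℕ) : Type :=
  {e : Fin N →₀ ℕ // ∀ j, ∑ l with b l = j, e l ≤ d j}

/-- The degree of `f` in the variables of the block `j` is at most `d j`, for all `j`. -/
def MultidegreeLE {N m : ℕ} (b : Fin N → Fin m) (d : Fin m → ℕ) {F : Type u} [Field F]
    (f : MvPolynomial (Fin N) F) : Prop :=
  ∀ e ∈ f.support, ∀ j, ∑ l with b l = j, e l ≤ d j

/-- The hypersurface `f = 0` is unirational over `F`: there are rational functions `P₁, …, P_N` over `F` in some number
`n` of variables such that `G(P₁, …, P_N) = 0` if and only if `f` divides `G`, for all polynomials `G` over `F`. -/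
def IsUnirational {N : ℕ} {F : Type u} [Field F] (f : MvPolynomial (Fin N) F) : Prop :=
  ∃ (n : ℕ) (P : Fin N → FractionRing (MvPolynomial (Fin n) F)),
    ∀ G : MvPolynomial (Fin N) F, aeval P G = 0 ↔ f ∣ G

/-- The points with coordinates in `F` are Zariski dense in the hypersurface `f = 0`: for every polynomial `G` over
`F` which is not divisible by `f` there is such a point with `G ≠ 0`. -/
def IsDense {N : ℕ} {F : Type u} [Field F] (f : MvPolynomial (Fin N) F) : Prop :=
  ∀ G : MvPolynomial (Fin N) F, ¬ f ∣ G → ∃ p : Fin N → F, eval p f = 0 ∧ eval p G ≠ 0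

/-- The quadratic forms in `n` variables over `F` have nontrivial zeros: the `u`-invariant of `F` is less than
`n`. -/
def IsotropicForms (F : Type u) [Field F] (n : ℕ) : Prop :=
  ∀ φ : MvPolynomial (Fin n) F, φ.IsHomogeneous 2 → ∃ a : Fin n → F, a ≠ 0 ∧ eval a φ = 0

/-- `x` is the generic point, and `K` the function field, of the hypersurface `f = 0` over `F`. -/
def IsGenericPoint {N : ℕ} {F : Type u} [Field F] (f : MvPolynomial (Fin N) F) {K : Type v} [Field K] [Algebra F K]
    (x : Fin N → K) : Prop :=
  (∀ G : MvPolynomial (Fin N) F, aeval x G = 0 ↔ f ∣ G) ∧ IntermediateField.adjoin F (Set.range x) = ⊤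

variable {k : Type u} [Field k] {K : Type v} [Field K] [Algebra k K] {M : ℕ}

/-- `p` is a point, with coordinates in `k`, of the affine variety `X` with the generic point `x`: it satisfies all
the equations over `k` which are satisfied by `x`. -/
def IsPoint (x : Fin M → K) (p : Fin M → k) : Prop :=
  ∀ H : MvPolynomial (Fin M) k, aeval x H = 0 → eval p H = 0

/-- The points of `X` with coordinates in some finitely generated subfield of `k` are Zariski dense in `X`: for every
polynomial `G` over `k` which does not vanish on `X` there is such a point at which `G` does not vanish. This property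
is the same for all varieties with the same function field. -/
def PotentiallyDense (k : Type u) [Field k] {K : Type v} [Field K] [Algebra k K] {M : ℕ} (x : Fin M → K) : Prop :=
  ∃ T : Finset k, ∀ G : MvPolynomial (Fin M) k, aeval x G ≠ 0 →
    ∃ p : Fin M → k, (∀ i, p i ∈ Subfield.closure (T : Set k)) ∧ IsPoint x p ∧ eval p G ≠ 0

/-- The varieties `X'` with function field `E ≤ K` over `B`, where `y` is the generic point of `B`, `F` the function
field of `B` and `K` the function field of `X`, are dominated over `B` by the product of `B` with an affine space, and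
they are potentially dense if and only if `B` is potentially dense. -/
def SameDensity (k : Type u) [Field k] {F : Type v} [Field F] [Algebra k F] {M : ℕ} (y : Fin M → F)
    (K : Type v) [Field K] [Algebra F K] : Prop :=
  ∀ (E : Type v) [Field E] [Algebra k E] [Algebra F E] [IsScalarTower k F E] (_ : E →ₐ[F] K),
    (∃ n, Nonempty (E →ₐ[F] FractionRing (MvPolynomial (Fin n) F))) ∧
    ∀ (M' : ℕ) (z : Fin M' → E), IntermediateField.adjoin k (Set.range z) = ⊤ →
      (PotentiallyDense k z ↔ PotentiallyDense k y)

/-- The varieties `X'` over `k` with function field `E ≤ K` (the varieties dominated by `X`, where `K` is the function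
field of `X`) are unirational and potentially dense. -/
def UnirationalDense (k : Type u) [Field k] (K : Type v) [Field K] [Algebra k K] : Prop :=
  ∀ (E : Type v) [Field E] [Algebra k E] (_ : E →ₐ[k] K),
    (∃ n, Nonempty (E →ₐ[k] FractionRing (MvPolynomial (Fin n) k))) ∧
    ∀ (M' : ℕ) (z : Fin M' → E), IntermediateField.adjoin k (Set.range z) = ⊤ → PotentiallyDense k z

end defs

/-- Let the `N` variables be divided in the blocks `0, …, m`; `b i` is the block of the variable `i`, and `n_j` is the
number of the variables in the block `j`. Let `n₀ ≥ 2`, and let `1 ≤ d_j ≤ 3` and `d_j ≤ n_j + 1` for the blocks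
`j ≥ 1` (with the index `j.succ` for `j < m`). Then there is a nonzero polynomial `Φ` with rational coefficients in the
coefficients of the polynomials of multidegree at most `(2, d₁, …, d_m)` with the following property. Let `F` be a
field of characteristic zero, and let `f` be such a polynomial over `F` with `Φ(f) ≠ 0` which is irreducible over the
algebraic closure of `F`.
(1) If the quadratic forms in `n₀ + 1` variables over `F` have nontrivial zeros, then the hypersurface `f = 0` is
unirational over `F`, and its points with coordinates in `F` are dense.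
(2) Let `F` be the function field, and `y` the generic point, of a variety `B` of dimension at most `r` over an
algebraically closed field `k`, where `2 ^ r ≤ n₀`. Then the hypersurface `f = 0` is unirational over `F`, and for its
function field `K`: `SameDensity k y K`, and `UnirationalDense k K` if `B` is unirational. -/
theorem result {N m : ℕ} (b : Fin N → Fin (m + 1)) (d : Fin m → ℕ) (hd : ∀ j, 1 ≤ d j ∧ d j ≤ 3)
    (hn : ∀ j : Fin m, d j ≤ (Finset.univ.filter fun l => b l = j.succ).card + 1)
    (hn₀ : 2 ≤ (Finset.univ.filter fun l => b l = 0).card) :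
    ∃ Φ : MvPolynomial (Exponent b (Fin.cons 2 d)) ℚ, Φ ≠ 0 ∧
      ∀ (F : Type) [Field F] [CharZero F] (f : MvPolynomial (Fin N) F), MultidegreeLE b (Fin.cons 2 d) f →
        Irreducible (map (algebraMap F (AlgebraicClosure F)) f) →
        aeval (fun e : Exponent b (Fin.cons 2 d) => coeff (e : Fin N →₀ ℕ) f) Φ ≠ 0 →
        (IsotropicForms F ((Finset.univ.filter fun l => b l = 0).card + 1) → IsUnirational f ∧ IsDense f) ∧
        ∀ (k : Type) [Field k] [IsAlgClosed k] [Algebra k F] {M : ℕ} (y : Fin M → F),
          IntermediateField.adjoin k (Set.range y) = ⊤ →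
          ∀ r : ℕ, Algebra.trdeg k F ≤ r → 2 ^ r ≤ (Finset.univ.filter fun l => b l = 0).card →
          IsUnirational f ∧
          ∀ (K : Type) [Field K] [Algebra k K] [Algebra F K] [IsScalarTower k F K] (x : Fin N → K),
            IsGenericPoint f x → SameDensity k y K ∧
              ((∃ q, Nonempty (F →ₐ[k] FractionRing (MvPolynomial (Fin q) k))) → UnirationalDense k K) := by
  obtain ⟨Φ, hΦ, hmain⟩ := Pool.Agent.N230.FC.multi2.{0} b d hd hn hn₀
  refine ⟨Φ, hΦ, ?_⟩
  intro F _ _ f hf hirr hΦf
  refine ⟨fun hF => hmain F hF f hf hirr hΦf, ?_⟩
  intro k _ _ _ M y hy r htr hr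
  have hck : CharZero k := (algebraMap k F).charZero
  have hF : IsotropicForms F ((Finset.univ.filter fun l => b l = 0).card + 1) := fun φ hφ =>
    Pool.Agent.N230.FC.quad_zero r htr φ hφ (by rw [Fintype.card_fin]; omega)
  obtain ⟨⟨n, P, hP⟩, -⟩ := hmain F hF f hf hirr hΦf
  refine ⟨⟨n, P, hP⟩, ?_⟩
  intro K _ _ _ _ x hx
  obtain ⟨σ⟩ := Pool.Agent.N230.FC.emb_gp hx.1 hx.2 hP
  refine ⟨?_, ?_⟩
  · intro E _ _ _ _ τ
    exact ⟨⟨n, ⟨σ.comp τ⟩⟩, fun M' z hz => Pool.Agent.N230.FC.pd_iff hy hz (σ.comp τ)⟩
  · rintro ⟨q, ⟨φ⟩⟩ E _ _ τ
    obtain ⟨n', ⟨ψ⟩⟩ := Pool.Agent.N230.FC.uni_base σ φ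
    exact ⟨⟨n', ⟨ψ.comp τ⟩⟩, fun M' z hz => Pool.Agent.N230.FC.uni_dense (ψ.comp τ) z⟩

end Pool.Agent.Results.MP_b62148_ag.GeneralMultidegreeOverBases
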