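import Pool.Agent.N128.DQ.Fin
import Pool.Agent.N122.Dens

/-!
# Potential density of the double covers of products of projective spaces of multidegree `(4, …, 4)`

Let `K` be a number field and let `X : w² = f(x₁, …, xₙ)` be the double cover given by a polynomial
`f` over `K` which is irreducible over the algebraic closure, of total degree at most four in two
variables `x_i`, `x_j` and of degree at most four in each other variable. So `X` is a family of del
Pezzo surfaces of degree two (double planes `w² = f₄(x_i, x_j)`) over a product of lines. We suppose
that the quartic branch curve of the general fibre is not a union of lines; no smoothness or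
generality is supposed. Then `X` is potentially dense: for some number field `L` containing `K` the
points of `X` over `L` are Zariski dense.

In particular (with `x_i`, `x_j` in one of the blocks) this holds for all double covers of
`ℙ^{n₁} × ⋯ × ℙ^{n_r}` with some `n_l ≥ 2` which are branched along a geometrically irreducible
divisor of multidegree `(4, …, 4)` with the mild condition above, for instance for the Fano fourfolds
which are double covers of `ℙ² × ℙ²` branched in bidegree `(4, 4)`; potential density is a
birational invariant of smooth projective varieties.

If `f` has an arbitrary degree in one more variable `x_v`, then `X` is potentially dense if it is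
rationally connected, so the answer to the question is positive for these varieties.

Proof. Over the algebraic closure `X` is unirational by `MP_214270_ag.QuarticDoubleCovers`
(helper128). The parametrization is defined over a number field `L`, and its values at the points
over `L` are dense: a polynomial `g(w, x)` which vanishes at all points over `L` vanishes at the
generic point of `X`, hence is divisible by `w² - f(x)`, the minimal polynomial of `w`.
-/

set_option autoImplicit false

namespace Pool.Agent.Results.MP_b62148_ag.QuarticDoubleCoversDensity

open MvPolynomial

section defs

variable {k : Type} [Field k] {n : ℕ}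

/-- The point with the coordinates `w = P 0` and `x i = P i.succ` is on the double cover
`X : w² = f(x)`. -/
def IsPoint (f : MvPolynomial (Fin n) k) (P : Fin (n + 1) → k) : Prop :=
  P 0 ^ 2 = eval (fun i => P i.succ) f

/-- The points `P` and `P'` are on a rational curve in `X`: there are rational functions `a i / b`
of one variable `s` which satisfy the equation of `X` and have the values `P i` at `s = 0` and
`P' i` at `s = 1`. -/
def Joined (f : MvPolynomial (Fin n) k) (P P' : Fin (n + 1) → k) : Prop :=
  ∃ (a : Fin (n + 1) → Polynomial k) (b : Polynomial k), b.eval 0 ≠ 0 ∧ b.eval 1 ≠ 0 ∧
    (∀ i, (a i).eval 0 = P i * b.eval 0) ∧ (∀ i, (a i).eval 1 = P' i * b.eval 1) ∧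
    (algebraMap (Polynomial k) (RatFunc k) (a 0) / algebraMap (Polynomial k) (RatFunc k) b) ^ 2 =
      aeval (fun i : Fin n => algebraMap (Polynomial k) (RatFunc k) (a i.succ) /
        algebraMap (Polynomial k) (RatFunc k) b) f

/-- Two general points of `X` are on a rational curve: all pairs of points in a nonempty open subset
`H ≠ 0` of `X × X` are. -/
def RationallyConnected (f : MvPolynomial (Fin n) k) : Prop :=
  ∃ H : MvPolynomial (Fin (n + 1) ⊕ Fin (n + 1)) k,
    (∃ P P' : Fin (n + 1) → k, IsPoint f P ∧ IsPoint f P' ∧ eval (Sum.elim P P') H ≠ 0) ∧
    ∀ P P' : Fin (n + 1) → k, IsPoint f P → IsPoint f P' → eval (Sum.elim P P') H ≠ 0 →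
      Joined f P P'

/-- The polynomial `f_ii f_j² - 2 f_ij f_i f_j + f_jj f_i²`. It vanishes at a smooth point of the
plane curve `f(x_i, x_j) = 0` if and only if the point is a flex; over an algebraically closed field
an irreducible `f` divides it if and only if the curve over the algebraic closure of the field
`k(x_l : l ≠ i, j)` is a union of lines (or empty). -/
noncomputable def flexForm (i j : Fin n) (f : MvPolynomial (Fin n) k) : MvPolynomial (Fin n) k :=
  pderiv i (pderiv i f) * pderiv j f ^ 2 - 2 * pderiv j (pderiv i f) * pderiv i f * pderiv j f +
    pderiv j (pderiv j f) * pderiv i f ^ 2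

/-- The points of `X : w² = f(x)` with coordinates in the field `k` are Zariski dense in `X`: every
polynomial in `w`, `x` over `k` which vanishes at all of them is divisible by `w² - f(x)`. -/
def DensePoints (f : MvPolynomial (Fin n) k) : Prop :=
  ∀ g : MvPolynomial (Fin (n + 1)) k, (∀ P : Fin (n + 1) → k, IsPoint f P → eval P g = 0) →
    (X 0 ^ 2 - rename Fin.succ f) ∣ g

/-- `X : w² = f(x)` over the number field `K` is potentially dense: the points over some number
field `L` which contains `K` are Zariski dense. -/
def PotentiallyDense {K : Type} [Field K] (f : MvPolynomial (Fin n) K) : Prop :=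
  ∃ (L : Type) (_ : Field L) (_ : NumberField L) (_ : Algebra K L),
    DensePoints (map (algebraMap K L) f)

/-- `f` as a polynomial over the algebraic closure -/
noncomputable def geometric {K : Type} [Field K] (f : MvPolynomial (Fin n) K) :
    MvPolynomial (Fin n) (AlgebraicClosure K) :=
  map (algebraMap K (AlgebraicClosure K)) f

end defs

/-- Let `K` be a number field and `f` a polynomial in `n` variables over `K` which is irreducible over
the algebraic closure of `K`, of total degree at most 4 in the two variables `x_i`, `x_j`, of
degree at most 4 in each other variable with the possible exception of `x_v`, and does not divide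
its flex form with respect to `x_i`, `x_j`. Suppose that the degree in `x_v` is also at most 4, or
that the variety `X : w² = f(x)` is rationally connected over the algebraic closure. Then `X` is
potentially dense. -/
theorem result (K : Type) [Field K] [NumberField K] (n : ℕ) (f : MvPolynomial (Fin n) K)
    (hf : Irreducible (geometric f)) (i j v : Fin n) (hij : i ≠ j)
    (hpair : ∀ d ∈ f.support, d i + d j ≤ 4) (hdeg : ∀ l, l ≠ v → degreeOf l f ≤ 4)
    (hflex : ¬ geometric f ∣ flexForm i j (geometric f))
    (hv : degreeOf v f ≤ 4 ∨ RationallyConnected (geometric f)) : PotentiallyDense f := by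
  have hinj := (algebraMap K (AlgebraicClosure K)).injective
  have hdegm : ∀ l, degreeOf l (geometric f) = degreeOf l f := by
    intro l
    unfold geometric degreeOf
    rw [degrees_map_of_injective f hinj]
  obtain ⟨m, P, W, hP, hW⟩ := Pool.Agent.N128.DQ.final2 (k := AlgebraicClosure K) hf hij
    (fun d hd => hpair d (support_map_subset _ _ hd)) (fun l hl => by rw [hdegm]; exact hdeg l hl)
    hflex (hv.imp (fun h => by rw [hdegm]; exact h) id)
  obtain ⟨L, h1, h2, h3, h⟩ := Pool.Agent.N122.Dens.dense (e := 2) (by norm_num) f hf m P W hP hW
  exact ⟨L, h1, h2, h3, fun g hg => h g fun z hz => hg z hz⟩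

end Pool.Agent.Results.MP_b62148_ag.QuarticDoubleCoversDensity
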